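import Pool.Agent.E8helper17.CND.S

set_option autoImplicit false

/-! BLOB (helper12) -/

namespace Pool.Agent.E8helper12.CNDB

open H17CND

theorem HP_mono {V : Type*} {G G' : SimpleGraph V} (h : G ≤ G') {A : Set V} {u v : V}
    (hp : HP G A u v) : HP G' A u v := by
  obtain ⟨l, ⟨h1, h2⟩, h3, h4, h5⟩ := hp
  exact ⟨l, ⟨h1, h2.imp fun a b hab => h hab⟩, h3, h4, h5⟩

theorem CycOrd_mono {V : Type*} {G G' : SimpleGraph V} (h : G ≤ G') {N : ℕ} {φ : ℕ → V}
    (hp : CycOrd G N φ) : CycOrd G' N φ :=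
  ⟨hp.inj, fun i hi => h (hp.adj i hi), h hp.close⟩

theorem iter (hO : S_OS) {V : Type} [Finite V] {g K N : ℕ} (hN : (K + 1) ^ 2 + 2 < N) :
    ∀ (Φ : List (ℕ → V)) (G : SimpleGraph V) (D : ℕ), GirthGE G g → DegLE G D →
      (D + 4 * Φ.length + 1) ^ g ≤ K → (∀ φ ∈ Φ, CycOrd G N φ) →
      ∃ G' : SimpleGraph V, G ≤ G' ∧ GirthGE G' g ∧ ∀ φ ∈ Φ, ∀ j, (K + 1) ^ 2 + 1 < j → j < N →
        HP G' {v | ∃ i < N, φ i = v} (φ j) (φ 0) := by
  intro Φ
  induction Φ with
  | nil =>
    intro G D hg _ _ _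
    exact ⟨G, le_rfl, hg, fun φ hφ => absurd hφ (by simp)⟩
  | cons φ Φ ih =>
    intro G D hg hD hK hc
    have hK1 : (D + 5) ^ g ≤ K := by
      refine le_trans (Nat.pow_le_pow_left ?_ g) hK
      rw [List.length_cons]
      omega
    obtain ⟨G1, h1, h2, h3, h4⟩ := hO V G g D K N φ hg hD hK1 hN (hc φ (by simp))
    have hK2 : (D + 4 + 4 * Φ.length + 1) ^ g ≤ K := by
      refine le_trans (Nat.pow_le_pow_left ?_ g) hK
      rw [List.length_cons]
      omega
    obtain ⟨G2, g1, g2, g3⟩ := ih G1 (D + 4) h2 h3 hK2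
      (fun ψ hψ => CycOrd_mono h1 (hc ψ (List.mem_cons_of_mem _ hψ)))
    refine ⟨G2, h1.trans g1, g2, ?_⟩
    intro ψ hψ
    rcases List.mem_cons.1 hψ with rfl | hψ
    · intro j hj hjN
      exact HP_mono g1 (h4 j hj hjN)
    · exact g3 ψ hψ

theorem lift_list {α : Type*} : ∀ l : List (Option α), (∀ x ∈ l, ∃ a, x = some a) →
    ∃ l' : List α, l = l'.map some := by
  intro l
  induction l with
  | nil => intro _; exact ⟨[], rfl⟩
  | cons x l ih =>
    intro h
    obtain ⟨a, ha⟩ := h x (by simp)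
    obtain ⟨l', hl'⟩ := ih fun y hy => h y (List.mem_cons_of_mem _ hy)
    exact ⟨a :: l', by rw [ha, hl']; rfl⟩

theorem HP_pull {α : Type*} {G : SimpleGraph (Option α)} {A : Set (Option α)} {u v : α}
    (hA : ∀ x, x ∈ A ↔ ∃ a, x = some a) (hp : HP G A (some u) (some v)) :
    HP (G.comap some) Set.univ u v := by
  obtain ⟨l, ⟨h1, h2⟩, h3, h4, h5⟩ := hp
  obtain ⟨l', rfl⟩ := lift_list l fun x hx => (hA x).1 ((h5 x).1 hx)
  refine ⟨l', ⟨List.Nodup.of_map _ h1, ?_⟩, ?_, ?_, ?_⟩
  · rw [List.isChain_map] at h2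
    exact h2
  · rw [List.head?_map] at h3
    simpa using h3
  · rw [List.getLast?_map] at h4
    simpa using h4
  · intro x
    refine ⟨fun _ => Set.mem_univ _, fun _ => ?_⟩
    have : some x ∈ l'.map some := (h5 _).2 ((hA _).2 ⟨x, rfl⟩)
    simpa using this

/-- the two systems at a point -/
def sys {N : ℕ} (a : ZMod N) (s : Bool) (k : ℕ) : Option (ZMod N) :=
  if s then some (a + k) else some (a - k)

theorem cast_inj {N : ℕ} [NeZero N] {i j : ℕ} (hi : i < N) (hj : j < N) (h : (i : ZMod N) = j) : i = j := by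
  have h1 := congrArg ZMod.val h
  rwa [ZMod.val_cast_of_lt hi, ZMod.val_cast_of_lt hj] at h1

theorem sys_cyc {N : ℕ} [NeZero N] (hN : 3 ≤ N) {G : SimpleGraph (Option (ZMod N))}
    (hG : ∀ a : ZMod N, G.Adj (some a) (some (a + 1))) (a : ZMod N) (s : Bool) :
    CycOrd G N (sys a s) := by
  have hlast : ((N - 1 : ℕ) : ZMod N) + 1 = 0 := by
    have : ((N - 1 + 1 : ℕ) : ZMod N) = 0 := by
      rw [Nat.sub_add_cancel (by omega)]
      exact ZMod.natCast_self N
    rw [← this]; push_cast; rfl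
  refine ⟨?_, ?_, ?_⟩
  · intro i hi j hj h
    unfold sys at h
    split_ifs at h
    · exact cast_inj hi hj (add_left_cancel (Option.some.inj h))
    · have h1 := Option.some.inj h
      exact cast_inj hi hj (sub_right_injective h1)
  · intro i _
    unfold sys
    split_ifs
    · have h1 := hG (a + i)
      have h2 : a + (i : ZMod N) + 1 = a + ((i + 1 : ℕ) : ZMod N) := by push_cast; ring
      rw [h2] at h1
      exact h1
    · have h1 := hG (a - ((i + 1 : ℕ) : ZMod N))
      have h2 : a - ((i + 1 : ℕ) : ZMod N) + 1 = a - (i : ZMod N) := by push_cast; ring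
      rw [h2] at h1
      exact h1.symm
  · unfold sys
    split_ifs
    · have h1 := hG (a + ((N - 1 : ℕ) : ZMod N))
      have h2 : a + ((N - 1 : ℕ) : ZMod N) + 1 = a + ((0 : ℕ) : ZMod N) := by
        rw [add_assoc, hlast]; simp
      rw [h2] at h1
      exact h1
    · have h1 := hG a
      have h2 : a - ((N - 1 : ℕ) : ZMod N) = a + 1 := by
        have h3 : ((N - 1 : ℕ) : ZMod N) = -1 := eq_neg_of_add_eq_zero_left hlast
        rw [h3]; ring
      have h3 : a - ((0 : ℕ) : ZMod N) = a := by simp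
      rw [h2, h3]
      exact h1.symm

theorem sys_range {N : ℕ} [NeZero N] (a : ZMod N) (s : Bool) (x : Option (ZMod N)) :
    x ∈ {v | ∃ i < N, sys a s i = v} ↔ ∃ b, x = some b := by
  constructor
  · rintro ⟨i, _, rfl⟩
    unfold sys
    split_ifs
    · exact ⟨_, rfl⟩
    · exact ⟨_, rfl⟩
  · rintro ⟨b, rfl⟩
    cases s with
    | false =>
      refine ⟨(a - b).val, ZMod.val_lt _, ?_⟩
      unfold sys
      rw [if_neg (by simp), ZMod.natCast_zmod_val, sub_sub_cancel]
    | true =>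
      refine ⟨(b - a).val, ZMod.val_lt _, ?_⟩
      unfold sys
      rw [if_pos rfl, ZMod.natCast_zmod_val, add_sub_cancel]

theorem sys_zero {N : ℕ} (a : ZMod N) (s : Bool) : sys a s 0 = some a := by
  unfold sys
  split_ifs <;> simp

theorem map_path {V W : Type*} {G : SimpleGraph V} {G' : SimpleGraph W} (f : G →g G')
    (hf : Function.Injective f) {u v : V} (p : G.Walk u v) (hp : p.IsPath) :
    ∃ q : G'.Walk (f u) (f v), q.IsPath ∧ q.length = p.length ∧ ∀ x ∈ q.support, ∃ a, x = f a := by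
  refine ⟨p.map f, hp.map hf, SimpleGraph.Walk.length_map _ _, ?_⟩
  intro x hx
  rw [SimpleGraph.Walk.support_map] at hx
  obtain ⟨a, _, ha⟩ := List.mem_map.1 hx
  exact ⟨a, ha.symm⟩

theorem BLOB (hB : S_BASE) (hO : S_OS) : S_BLOB := by
  intro g
  obtain ⟨K, hK⟩ : ∃ K : ℕ, K = 39 ^ (g + 2) := ⟨_, rfl⟩
  obtain ⟨N, hN⟩ : ∃ N : ℕ, N = 2 * (K + 1) ^ 2 + 10 := ⟨_, rfl⟩
  have hK1 : 7 ^ (g + 2) ≤ K := by rw [hK]; exact Nat.pow_le_pow_left (by norm_num) _
  have hK2 : g + 2 ≤ 7 ^ (g + 2) := (Nat.lt_pow_self (by norm_num)).le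
  have hKN : K < N := by rw [hN]; nlinarith
  have : NeZero N := ⟨by omega⟩
  obtain ⟨t, G, htinj, hcyc, hnone, hgir, hdeg⟩ :=
    hB (g + 2) N (by omega) (by omega) (by omega) (by omega)
  obtain ⟨Φ, hΦ⟩ : ∃ Φ : List (ℕ → Option (ZMod N)), Φ =
      [sys (t 0) true, sys (t 0) false, sys (t 1) true, sys (t 1) false,
       sys (t 2) true, sys (t 2) false, sys (t 3) true, sys (t 3) false] := ⟨_, rfl⟩
  have hmem : ∀ (i : Fin 4) (s : Bool), sys (t i) s ∈ Φ := by
    intro i s
    rw [hΦ]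
    fin_cases i <;> cases s <;> simp
  have hlen : Φ.length = 8 := by rw [hΦ]; rfl
  have hall : ∀ φ ∈ Φ, CycOrd G N φ := by
    intro φ hφ
    rw [hΦ] at hφ
    simp only [List.mem_cons, List.not_mem_nil, or_false] at hφ
    rcases hφ with rfl | rfl | rfl | rfl | rfl | rfl | rfl | rfl <;>
      exact sys_cyc (by omega) hcyc _ _
  obtain ⟨G', h1, h2, h3⟩ := iter hO (K := K) (N := N) (by rw [hN]; nlinarith) Φ G 6 hgir hdeg
    (by rw [hlen, hK]) hall
  have hinj : Function.Injective (some : ZMod N → Option (ZMod N)) := Option.some_injective _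
  refine ⟨⟨ZMod N, inferInstance, G'.comap some, t, htinj, ?_, ?_, ?_⟩⟩
  · intro v c hc
    have h4 := h2 _ (c.map (SimpleGraph.Hom.comap some G')) (hc.map hinj)
    rw [SimpleGraph.Walk.length_map] at h4
    omega
  · intro i j hij p
    classical
    have hle := p.length_bypass_le_length
    have hpath := p.bypass_isPath
    obtain ⟨q, hqp, hql, hqs⟩ : ∃ q : G'.Walk (some (t i)) (some (t j)), q.IsPath ∧
        q.length = p.bypass.length ∧ ∀ x ∈ q.support, ∃ a : ZMod N, x = some a :=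
      map_path (SimpleGraph.Hom.comap some G') hinj p.bypass hpath
    have hqlen : q.length ≤ p.length := by
      rw [hql]; exact hle
    have hnn : none ∉ q.support := by
      intro h
      obtain ⟨a, ha⟩ := hqs _ h
      exact absurd ha (by simp)
    have h5 : (SimpleGraph.Walk.cons (h1 (hnone i)) q).IsPath :=
      (SimpleGraph.Walk.cons_isPath_iff _ _).2 ⟨hqp, hnn⟩
    have h6 : (SimpleGraph.Walk.cons (h1 (hnone j)).symm (SimpleGraph.Walk.cons (h1 (hnone i)) q)).IsCycle := by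
      rw [SimpleGraph.Walk.cons_isCycle_iff]
      refine ⟨h5, ?_⟩
      rw [SimpleGraph.Walk.edges_cons, List.mem_cons, not_or]
      constructor
      · intro h
        rw [Sym2.eq_iff] at h
        rcases h with ⟨h, _⟩ | ⟨h, _⟩
        · exact absurd h (by simp)
        · exact hij (htinj (hinj h)).symm
      · intro h
        exact hnn (SimpleGraph.Walk.snd_mem_support_of_mem_edges q h)
    have h7 := h2 _ _ h6
    rw [SimpleGraph.Walk.length_cons, SimpleGraph.Walk.length_cons] at h7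
    omega
  · intro i v hv
    have hj0 : (v - t i).val ≠ 0 := by
      intro h
      rw [ZMod.val_eq_zero, sub_eq_zero] at h
      exact hv h
    have hjN : (v - t i).val < N := ZMod.val_lt _
    have hjc : (((v - t i).val : ℕ) : ZMod N) = v - t i := ZMod.natCast_zmod_val _
    obtain ⟨j, hj⟩ : ∃ j, j = (v - t i).val := ⟨_, rfl⟩
    rw [← hj] at hj0 hjN hjc
    by_cases hc : (K + 1) ^ 2 + 1 < j
    · have h4 := h3 _ (hmem i true) j hc hjN
      rw [sys_zero] at h4
      have h5 : sys (t i) true j = some v := by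
        unfold sys
        rw [if_pos rfl, hjc, add_sub_cancel]
      rw [h5] at h4
      exact HP_pull (sys_range _ _) h4
    · have h4 := h3 _ (hmem i false) (N - j) (by omega) (by omega)
      rw [sys_zero] at h4
      have h5 : sys (t i) false (N - j) = some v := by
        unfold sys
        rw [if_neg (by simp), Nat.cast_sub hjN.le, ZMod.natCast_self, hjc]
        congr 1
        ring
      rw [h5] at h4
      exact HP_pull (sys_range _ _) h4

end Pool.Agent.E8helper12.CNDB
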